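import Pool.Agent.H43.BZ.Stm2
import Pool.Agent.H350.BZ.HYD

/-! BZ2-HYDn (for helper43): bounded mass, energy and entropy densities from `f ≤ B P`
(adapted from helper350's `HYD`). -/

set_option autoImplicit false

open MeasureTheory Metric Set
open scoped RealInnerProductSpace ENNReal

namespace Pool.Agent.H909.BZ

open Pool.Agent.H43.BZ
open Pool.Agent.H350.BZ

theorem HYDn : S_HYDn := by
  intro d _ γ b T f _ hsol B hB0
  set N' : ℝ := max B 0 with hN'
  have hN'n : 0 ≤ N' := le_max_right _ _
  have hbd' : ∀ t ∈ Ico 0 T, ∀ x v, f t x v ≤ N' * P d v := by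
    intro t ht x v
    refine le_trans (hB0 t ht x v) ?_
    exact mul_le_mul_of_nonneg_right (le_max_left _ _) (P_nonneg d v)
  have hJ : 0 ≤ ∫ v, G d v := integral_nonneg fun v => G_nonneg d v
  refine ⟨N' * (∫ v, G d v) + (N' * |Real.log N'|) * ∫ v, G d v, ?_⟩
  intro t ht x
  have hA : 0 ≤ N' * ∫ v, G d v := mul_nonneg hN'n hJ
  have hB : 0 ≤ (N' * |Real.log N'|) * ∫ v, G d v :=
    mul_nonneg (mul_nonneg hN'n (abs_nonneg _)) hJ
  have hfn : ∀ v, 0 ≤ f t x v := fun v => hsol.nonneg t ht x v
  have hfG : ∀ v, f t x v ≤ N' * G d v := fun v =>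
    le_trans (hbd' t ht x v) (mul_le_mul_of_nonneg_left (P_le_G d v) hN'n)
  refine ⟨?_, ?_, ?_⟩
  · have h1 : ∫ v, f t x v ≤ ∫ v, N' * G d v :=
      integral_mono_of_nonneg (Filter.Eventually.of_forall hfn) ((G_int d).const_mul N')
        (Filter.Eventually.of_forall hfG)
    rw [integral_const_mul] at h1
    linarith
  · have h1 : ∫ v, f t x v * ‖v‖ ^ 2 ≤ ∫ v, N' * G d v := by
      refine integral_mono_of_nonneg (Filter.Eventually.of_forall fun v => ?_)
        ((G_int d).const_mul N') (Filter.Eventually.of_forall fun v => ?_)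
      · exact mul_nonneg (hfn v) (sq_nonneg _)
      · calc f t x v * ‖v‖ ^ 2 ≤ (N' * P d v) * ‖v‖ ^ 2 :=
              mul_le_mul_of_nonneg_right (hbd' t ht x v) (sq_nonneg _)
          _ = N' * (P d v * ‖v‖ ^ 2) := by ring
          _ ≤ N' * G d v := mul_le_mul_of_nonneg_left (sq_P_le_G d v) hN'n
    rw [integral_const_mul] at h1
    linarith
  · have hpt : ∀ v, f t x v * Real.log (f t x v) ≤ (N' * |Real.log N'|) * G d v := by
      intro v
      rcases (hfn v).eq_or_lt with h0 | h0
      · rw [← h0, zero_mul]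
        exact mul_nonneg (mul_nonneg hN'n (abs_nonneg _)) (G_nonneg d v)
      · have hle : f t x v ≤ N' := by
          refine le_trans (hbd' t ht x v) ?_
          calc N' * P d v ≤ N' * 1 := mul_le_mul_of_nonneg_left (P_le_one d v) hN'n
            _ = N' := mul_one _
        have hlog : Real.log (f t x v) ≤ |Real.log N'| :=
          le_trans (Real.log_le_log h0 hle) (le_abs_self _)
        calc f t x v * Real.log (f t x v) ≤ f t x v * |Real.log N'| :=
              mul_le_mul_of_nonneg_left hlog h0.le
          _ ≤ (N' * G d v) * |Real.log N'| :=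
              mul_le_mul_of_nonneg_right (hfG v) (abs_nonneg _)
          _ = (N' * |Real.log N'|) * G d v := by ring
    have h1 : ∫ v, f t x v * Real.log (f t x v) ≤ (N' * |Real.log N'|) * ∫ v, G d v := by
      by_cases hi : Integrable (fun v => f t x v * Real.log (f t x v))
      · have h2 : ∫ v, f t x v * Real.log (f t x v) ≤ ∫ v, (N' * |Real.log N'|) * G d v :=
          integral_mono hi ((G_int d).const_mul _) hpt
        rw [integral_const_mul] at h2
        exact h2
      · rw [integral_undef hi]
        exact hB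
    linarith

end Pool.Agent.H909.BZ
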